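import Pool.Agent.Lib.MP_31068f_lc.Levels

set_option autoImplicit false

namespace Pool.Agent.Results.MP_31068f_lc.Counterexample

open Pool.Agent.Lib.MP_31068f_lc

/-- (1) There are ultrafilters `F` on the level `L_1` and `G` on the level `L_2` with `F` finitely
embeddable in `G` but not M-dividing `G`.
(2) For `F` on the level `L_m`, finite embeddability of `F` implies M-divisibility for all `G` on
the level `L_n` exactly when `F` is principal or `n ≤ m`. -/
theorem result :
    (∃ F G : Ultrafilter ℕ+, level 1 ∈ F ∧ level 2 ∈ G ∧ UFinEmb F G ∧ ¬ MDvd F G) ∧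
    ∀ (m n : ℕ) (F : Ultrafilter ℕ+), level m ∈ F →
      ((∀ G : Ultrafilter ℕ+, level n ∈ G → UFinEmb F G → MDvd F G) ↔
        ((∃ a : ℕ+, F = pure a) ∨ n ≤ m)) :=
  ⟨⟨FF, GG, FF_prime.mono fun _ ha => om_eq_one.2 ha, GG_level, FF_finEmb, not_MDvd⟩,
    classification⟩

end Pool.Agent.Results.MP_31068f_lc.Counterexample
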